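import Pool.Agent.Lib.MP_938ce2_ag_h99t.Exc
import Pool.Agent.Lib.MP_938ce2_ag_h99v.GD

/-!
The correction term of the class of a set of primes `3` modulo `4`.
-/

set_option autoImplicit false
set_option linter.style.haveILetI false
set_option linter.unusedSectionVars false

open Finset

namespace Pool.Agent.Lib.MP_938ce2_ag_h99z

open Pool.Agent.Lib.MP_938ce2_ag_h99 Pool.Agent.Lib.MP_938ce2_ag_h6
open Pool.Agent.Lib.MP_938ce2_ag_h99t
open Pool.Agent.Lib.MP_938ce2_ag_h99v (PJ)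

variable {m : ℕ} [NeZero m]

/-- sets of primes `3` modulo `4` -/
def P3 (T : Finset ℕ) : Prop := ∀ p ∈ T, p.Prime ∧ p % 4 = 3

lemma P3.good {T : Finset ℕ} (h : P3 T) : Good T := fun p hp => ⟨(h p hp).1, Or.inr (h p hp).2⟩

lemma P3.two {T : Finset ℕ} (h : P3 T) : 2 ∉ T := by
  intro h2
  have := (h 2 h2).2
  omega

lemma P3.PJ {T : Finset ℕ} (h : P3 T) : PJ T := fun p hp => (h p hp).1

lemma P3.ep {T : Finset ℕ} (h : P3 T) {p : ℕ} (hp : p ∈ T) : ep p = p := by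
  unfold Pool.Agent.Lib.MP_938ce2_ag_h99.ep
  rw [if_neg]
  rintro rfl
  exact h.two hp

lemma P3.fJ {T : Finset ℕ} (h : P3 T) : fJ T = ∏ p ∈ T, p :=
  prod_congr rfl fun _ hp => h.ep hp

/-- the correction term -/
structure Cor (m : ℕ) [NeZero m] (T : Finset ℕ) (E0 : ZMod m → ℤ) : Prop where
  odd : OddF E0
  tate : TateF (oddPart (BJ m T) - E0)
  supp : ∀ a, E0 a ≠ 0 → ∃ J, J ⊆ T ∧ Odd J.card ∧ addOrderOf a = fJ J

lemma exists_cor {T : Finset ℕ} (hT : P3 T) (hne : T.Nonempty) (hm : fJ T ∣ m) :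
    ∃ E0, Cor m T E0 := by
  have hTg : Good T := hT.good
  obtain ⟨E0, e1, e2, e3, e4⟩ := exists_E0 (m := m) hTg hm (Sf_mem hTg hne)
  refine ⟨E0, e2, ?_, e4⟩
  intro t
  have h1 := sum_BJ hTg hne hm t
  have h3 := e3 t
  simp only [Pi.sub_apply, sub_mul, sum_sub_distrib]
  rw [← h3] at h1
  have h4 := Int.cast_injective h1
  rw [h4, sub_self]

end Pool.Agent.Lib.MP_938ce2_ag_h99z
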