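import Pool.Agent.Lib.MP_938ce2_ag_h99y.Y08

/-!
The parity of the number of elements whose order has a given set of odd prime factors.
-/

set_option autoImplicit false
set_option linter.style.haveILetI false
set_option linter.unusedSectionVars false

open Finset

namespace Pool.Agent.Lib.MP_938ce2_ag_h99z

open Pool.Agent.Lib.MP_938ce2_ag_h99 Pool.Agent.Lib.MP_938ce2_ag_h6
open Pool.Agent.Lib.MP_938ce2_ag_h99t Pool.Agent.Lib.MP_938ce2_ag_h99v
open Pool.Agent.Lib.MP_938ce2_ag_h99y (hw two_zmod)

variable {m : ℕ} [NeZero m]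

/-- the elements whose order has the set `S` of prime factors -/
noncomputable def PS (m : ℕ) [NeZero m] (S : Finset ℕ) : Finset (ZMod m) :=
  univ.filter fun a => (addOrderOf a).primeFactors = S

lemma mem_PS {S : Finset ℕ} {a : ZMod m} : a ∈ PS m S ↔ (addOrderOf a).primeFactors = S := by
  unfold PS
  simp only [mem_filter, mem_univ, true_and]

lemma neg_mem_PS {S : Finset ℕ} {a : ZMod m} (h : a ∈ PS m S) : -a ∈ PS m S := by
  rw [mem_PS] at h ⊢
  rwa [addOrderOf_neg]

lemma ne_zero_of_PS {S : Finset ℕ} (hne : S.Nonempty) {a : ZMod m} (h : a ∈ PS m S) : a ≠ 0 := by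
  rintro rfl
  rw [mem_PS, addOrderOf_zero, Nat.primeFactors_one] at h
  rw [← h] at hne
  exact Finset.not_nonempty_empty hne

lemma neg_ne_of_PS {S : Finset ℕ} (hne : S.Nonempty) (h2 : 2 ∉ S) {a : ZMod m} (h : a ∈ PS m S) :
    -a ≠ a := by
  intro h3
  have h0 := ne_zero_of_PS hne h
  rw [mem_PS] at h
  have h4 : addOrderOf a ∣ 2 := by
    rw [addOrderOf_dvd_iff_nsmul_eq_zero, two_nsmul]
    nth_rewrite 1 [← h3]
    exact neg_add_cancel a
  rcases (Nat.dvd_prime Nat.prime_two).mp h4 with h5 | h5
  · exact h0 (AddMonoid.addOrderOf_eq_one_iff.mp h5)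
  · rw [h5, Nat.Prime.primeFactors Nat.prime_two] at h
    exact h2 (h ▸ mem_singleton_self 2)

lemma hw_add_neg_of {a : ZMod m} (h1 : -a ≠ a) (h0 : a ≠ 0) : hw a + hw (-a) = 1 := by
  have h2 : (-a).val = m - a.val := neg_val_sum a h0
  have h3 := a.val_lt
  have h4 : 2 * a.val ≠ m := by
    intro h5
    apply h1
    apply ZMod.val_injective
    rw [h2]
    omega
  unfold hw
  rw [h2]
  split_ifs <;> first | omega | decide

lemma hw_add_neg_PS {S : Finset ℕ} (hne : S.Nonempty) (h2 : 2 ∉ S) {a : ZMod m}
    (h : a ∈ PS m S) : hw a + hw (-a) = 1 :=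
  hw_add_neg_of (neg_ne_of_PS hne h2 h) (ne_zero_of_PS hne h)

/-- The half sum of an odd function over the elements of `PS m S`, modulo two. -/
noncomputable def delF (m : ℕ) [NeZero m] (S : Finset ℕ) : (ZMod m → ℤ) →+ ZMod 2 where
  toFun F := ∑ a ∈ PS m S, hw a * ((F a : ℤ) : ZMod 2)
  map_zero' := by simp
  map_add' F G := by
    rw [← sum_add_distrib]
    refine sum_congr rfl fun a _ => ?_
    rw [Pi.add_apply]
    push_cast
    ring

lemma delF_apply (S : Finset ℕ) (F : ZMod m → ℤ) :
    delF m S F = ∑ a ∈ PS m S, hw a * ((F a : ℤ) : ZMod 2) := rfl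

lemma delF_eq_zero {S : Finset ℕ} {F : ZMod m → ℤ} (h : ∀ a ∈ PS m S, F a = 0) :
    delF m S F = 0 := by
  rw [delF_apply]
  refine sum_eq_zero fun a ha => ?_
  rw [h a ha]
  simp

/-- the half sum does not depend on the choices -/
lemma sum_weight_PS {S : Finset ℕ} (hne : S.Nonempty) (h2 : 2 ∉ S) {F : ZMod m → ℤ} (hF : OddF F)
    (n : ZMod m → ZMod 2) (c : ZMod 2) (hn : ∀ a ∈ PS m S, F a ≠ 0 → n a + n (-a) = c) :
    ∑ a ∈ PS m S, n a * ((F a : ℤ) : ZMod 2) = c * delF m S F := by
  rw [delF_apply, mul_sum, ← sub_eq_zero, ← sum_sub_distrib]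
  refine sum_involution (fun a _ => -a) ?_ ?_ ?_ ?_
  · intro a ha
    have h1 : ((F (-a) : ℤ) : ZMod 2) = ((F a : ℤ) : ZMod 2) := by
      rw [hF a, Int.cast_neg, ZMod.neg_eq_self_mod_two]
    rw [h1]
    by_cases h0 : F a = 0
    · rw [h0]
      simp
    · have h4 := hn a ha h0
      have h3 := hw_add_neg_PS hne h2 ha
      linear_combination ((F a : ℤ) : ZMod 2) * (h4 - c * h3)
  · intro a ha _
    exact neg_ne_of_PS hne h2 ha
  · intro a ha
    exact neg_mem_PS ha
  · intro a _
    exact neg_neg a

lemma delF_oddPart {S : Finset ℕ} (hne : S.Nonempty) (h2 : 2 ∉ S) (s : Multiset (ZMod m)) :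
    delF m S (oddPart s) = ∑ a ∈ PS m S, (s.count a : ZMod 2) := by
  rw [delF_apply]
  have h1 : ∀ a ∈ PS m S, hw a * ((oddPart s a : ℤ) : ZMod 2) =
      hw a * (s.count a : ZMod 2) + hw a * (s.count (-a) : ZMod 2) := by
    intro a _
    unfold oddPart
    push_cast
    have h2 : -(s.count (-a) : ZMod 2) = (s.count (-a) : ZMod 2) := ZMod.neg_eq_self_mod_two _
    linear_combination hw a * h2
  rw [sum_congr rfl h1, sum_add_distrib]
  have h3 : ∑ a ∈ PS m S, hw a * (s.count (-a) : ZMod 2) =
      ∑ a ∈ PS m S, hw (-a) * (s.count a : ZMod 2) := by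
    refine sum_nbij' (fun a => -a) (fun a => -a) (fun a ha => neg_mem_PS ha)
      (fun a ha => neg_mem_PS ha) (fun a _ => neg_neg a) (fun a _ => neg_neg a) ?_
    intro a _
    rw [neg_neg]
  rw [h3, ← sum_add_distrib]
  refine sum_congr rfl fun a ha => ?_
  rw [← add_mul, hw_add_neg_PS hne h2 ha, one_mul]

/-- the order of a multiple by a prime -/
lemma order_prime_mul {q : ℕ} (hq : q.Prime) (b : ZMod m) :
    addOrderOf ((q : ZMod m) * b) = if q ∣ addOrderOf b then addOrderOf b / q
      else addOrderOf b := by
  have h1 : addOrderOf ((q : ZMod m) * b) = addOrderOf b / Nat.gcd (addOrderOf b) q := by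
    rw [← nsmul_eq_mul]
    exact addOrderOf_nsmul b
  rw [h1]
  split_ifs with h
  · rw [Nat.gcd_eq_right h]
  · rw [Nat.Coprime.gcd_eq_one (Nat.Coprime.symm ((Nat.Prime.coprime_iff_not_dvd hq).mpr h)),
      Nat.div_one]

/-- the fibre of multiplication by a prime divisor `q` of `m` over a multiple of `q` -/
lemma card_fib' {q : ℕ} (hq : q.Prime) (hqm : q ∣ m) (b0 : ZMod m) :
    (univ.filter fun x : ZMod m => (q : ZMod m) * x = (q : ZMod m) * b0).card = q := by
  obtain ⟨e, he⟩ := hqm
  have hm0 : 0 < m := Nat.pos_of_ne_zero (NeZero.ne m)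
  have he0 : 0 < e := Nat.pos_of_ne_zero fun h => by
    rw [h, mul_zero] at he
    omega
  have hset : (univ.filter fun x : ZMod m => (q : ZMod m) * x = (q : ZMod m) * b0) =
      (range q).image fun j : ℕ => b0 + ((e * j : ℕ) : ZMod m) := by
    ext x
    simp only [mem_filter, mem_univ, true_and, mem_image, mem_range]
    constructor
    · intro h
      have h1 : ((q * (x - b0).val : ℕ) : ZMod m) = 0 := by
        rw [Nat.cast_mul, ZMod.natCast_zmod_val, mul_sub, h, sub_self]
      rw [ZMod.natCast_eq_zero_iff] at h1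
      have h1' : q * e ∣ q * (x - b0).val := he ▸ h1
      obtain ⟨j, hj⟩ := Nat.dvd_of_mul_dvd_mul_left hq.pos h1'
      refine ⟨j, ?_, ?_⟩
      · have h2 : (x - b0).val < m := ZMod.val_lt _
        rw [hj] at h2
        have h2' : e * j < e * q := by
          calc e * j < m := h2
            _ = e * q := by rw [mul_comm e q]; exact he
        exact Nat.lt_of_mul_lt_mul_left h2'
      · rw [← hj, ZMod.natCast_zmod_val]
        ring
    · rintro ⟨j, -, rfl⟩
      have h1 : ((q * (e * j) : ℕ) : ZMod m) = 0 := by
        rw [ZMod.natCast_eq_zero_iff]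
        exact ⟨j, by rw [he]; ring⟩
      push_cast at h1 ⊢
      linear_combination h1
  rw [hset, card_image_of_injOn, card_range]
  intro i hi j hj hij
  simp only [coe_range, Set.mem_Iio] at hi hj
  have h1 : ((e * i : ℕ) : ZMod m) = ((e * j : ℕ) : ZMod m) := add_left_cancel hij
  rw [ZMod.natCast_eq_natCast_iff'] at h1
  have h2 : ∀ k, k < q → e * k < m := by
    intro k hk
    rw [he, mul_comm q e]
    exact Nat.mul_lt_mul_of_pos_left hk he0
  rw [Nat.mod_eq_of_lt (h2 i hi), Nat.mod_eq_of_lt (h2 j hj)] at h1
  exact Nat.eq_of_mul_eq_mul_left he0 h1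

/-- the part of the fibre whose order is prime to `q` -/
lemma fib_coprime {q : ℕ} (hq : q.Prime) {c : ZMod m} (hc : ¬ q ∣ addOrderOf c) :
    ∃ b : ZMod m, (q : ZMod m) * b = c ∧ addOrderOf b = addOrderOf c ∧
      ∀ b', (q : ZMod m) * b' = c → ¬ q ∣ addOrderOf b' → b' = b := by
  have hcop : IsCoprime (q : ℤ) ((addOrderOf c : ℕ) : ℤ) := by
    rw [Nat.isCoprime_iff_coprime]
    exact (Nat.Prime.coprime_iff_not_dvd hq).mpr hc
  obtain ⟨u, v, huv⟩ := hcop
  have hzero : ((addOrderOf c : ℕ) : ZMod m) * c = 0 := by
    rw [← nsmul_eq_mul]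
    exact addOrderOf_nsmul_eq_zero c
  have h7 : (q : ZMod m) * ((u : ZMod m) * c) = c := by
    have h8 : ((u * q + v * ((addOrderOf c : ℕ) : ℤ) : ℤ) : ZMod m) * c = c := by
      rw [huv]
      simp
    push_cast at h8
    linear_combination h8 - (v : ZMod m) * hzero
  have hord : addOrderOf ((u : ZMod m) * c) = addOrderOf c := by
    apply Nat.dvd_antisymm
    · rw [addOrderOf_dvd_iff_nsmul_eq_zero, nsmul_eq_mul]
      linear_combination (u : ZMod m) * hzero
    · have h10 : ((addOrderOf ((u : ZMod m) * c) : ℕ) : ZMod m) * ((u : ZMod m) * c) = 0 := by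
        rw [← nsmul_eq_mul]
        exact addOrderOf_nsmul_eq_zero _
      rw [addOrderOf_dvd_iff_nsmul_eq_zero, nsmul_eq_mul]
      generalize addOrderOf ((u : ZMod m) * c) = k at h10
      linear_combination (q : ZMod m) * h10 - (k : ZMod m) * h7
  refine ⟨(u : ZMod m) * c, h7, hord, ?_⟩
  intro b' hb' hqb'
  have hord' : addOrderOf b' = addOrderOf c := by
    rw [← hb', order_prime_mul hq, if_neg hqb']
  have hz' : ((addOrderOf c : ℕ) : ZMod m) * b' = 0 := by
    rw [← hord', ← nsmul_eq_mul]
    exact addOrderOf_nsmul_eq_zero b'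
  have h8 : ((u * q + v * ((addOrderOf c : ℕ) : ℤ) : ℤ) : ZMod m) * b' = b' := by
    rw [huv]
    simp
  push_cast at h8
  linear_combination (u : ZMod m) * hb' - h8 + (v : ZMod m) * hz'

/-- relations have even half sums -/
lemma delF_rel {S : Finset ℕ} (hne : S.Nonempty) (h2S : 2 ∉ S) {q : ℕ} (hq : q.Prime)
    (hqm : q ∣ m) {g : ZMod m → ℤ} (hg : OddF g)
    (hs : ∀ a, g a ≠ 0 → ∃ b, a = (q : ZMod m) * b) : delF m S (rel q g) = 0 := by
  classical
  have hord0 : ∀ a : ZMod m, addOrderOf a ≠ 0 := fun a => (addOrderOf_pos a).ne'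
  -- the weight
  set n : ZMod m → ZMod 2 := fun c => ∑ b ∈ (PS m S).filter (fun b => (q : ZMod m) * b = c), hw b
    with hn
  have hnneg : ∀ c, n c + n (-c) =
      (((PS m S).filter (fun b => (q : ZMod m) * b = c)).card : ZMod 2) := by
    intro c
    have h3 : n (-c) = ∑ b ∈ (PS m S).filter (fun b => (q : ZMod m) * b = c), hw (-b) := by
      rw [hn]
      simp only
      refine sum_nbij' (fun a => -a) (fun a => -a) ?_ ?_ (fun a _ => neg_neg a)
        (fun a _ => neg_neg a) ?_
      · intro b hb
        rw [mem_filter] at hb ⊢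
        exact ⟨neg_mem_PS hb.1, by rw [mul_neg, hb.2, neg_neg]⟩
      · intro b hb
        rw [mem_filter] at hb ⊢
        exact ⟨neg_mem_PS hb.1, by rw [mul_neg, hb.2]⟩
      · intro b _
        rw [neg_neg]
    rw [h3, hn]
    simp only
    rw [← sum_add_distrib]
    have h4 : ∀ b ∈ (PS m S).filter (fun b => (q : ZMod m) * b = c), hw b + hw (-b) = 1 :=
      fun b hb => hw_add_neg_PS hne h2S (mem_filter.mp hb).1
    rw [sum_congr rfl h4, sum_const, nsmul_eq_mul, mul_one]
  have h1 : ∑ b ∈ PS m S, hw b * ((g ((q : ZMod m) * b) : ℤ) : ZMod 2) =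
      ∑ c, n c * ((g c : ℤ) : ZMod 2) := by
    have h2 : ∀ b ∈ PS m S, hw b * ((g ((q : ZMod m) * b) : ℤ) : ZMod 2) =
        ∑ c, if (q : ZMod m) * b = c then hw b * ((g c : ℤ) : ZMod 2) else 0 := by
      intro b hb
      rw [sum_ite_eq, if_pos (mem_univ _)]
    rw [sum_congr rfl h2, sum_comm]
    refine sum_congr rfl fun c _ => ?_
    rw [hn]
    simp only
    rw [sum_mul, sum_filter]
  -- the elements of `PS m S` and the other ones
  have h2 : ∑ c, n c * ((g c : ℤ) : ZMod 2) = delF m S g := by
    rw [← sum_filter_add_sum_filter_not univ (fun c => c ∈ PS m S)]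
    have e1 : (univ.filter fun c => c ∈ PS m S) = PS m S := by
      ext c
      simp
    rw [e1]
    have h3 : ∑ c ∈ PS m S, n c * ((g c : ℤ) : ZMod 2) = 1 * delF m S g := by
      refine sum_weight_PS hne h2S hg n 1 ?_
      intro c hc hgc
      rw [hnneg]
      obtain ⟨b0, hb0⟩ := hs c hgc
      have hcS := mem_PS.mp hc
      by_cases hqS : q ∈ S
      · have h5 : (PS m S).filter (fun b => (q : ZMod m) * b = c) =
            univ.filter fun x : ZMod m => (q : ZMod m) * x = (q : ZMod m) * b0 := by
          ext b
          rw [mem_filter, mem_filter, ← hb0]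
          constructor
          · intro h
            exact ⟨mem_univ _, h.2⟩
          · intro h
            refine ⟨?_, h.2⟩
            have h6 := order_prime_mul hq b
            rw [h.2] at h6
            have hqc : q ∣ addOrderOf c := by
              rw [← hcS] at hqS
              exact Nat.dvd_of_mem_primeFactors hqS
            rw [mem_PS]
            split_ifs at h6 with h7
            · obtain ⟨e, he⟩ := h7
              rw [he, Nat.mul_div_cancel_left _ hq.pos] at h6
              have he0 : e ≠ 0 := fun h => hord0 b (by rw [he, h, mul_zero])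
              rw [he, Nat.primeFactors_mul hq.ne_zero he0, ← h6, hcS, Nat.Prime.primeFactors hq]
              exact union_eq_right.mpr (singleton_subset_iff.mpr hqS)
            · rw [← h6, hcS]
        have h6 := card_fib' hq hqm b0
        rw [h5, h6]
        have h8 : q % 2 = 1 := hq.eq_two_or_odd.resolve_left fun h => h2S (h ▸ hqS)
        rw [← ZMod.natCast_mod, h8]
        rfl
      · have hqc : ¬ q ∣ addOrderOf c := by
          intro h
          apply hqS
          rw [← hcS]
          exact Nat.mem_primeFactors.mpr ⟨hq, h, hord0 c⟩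
        obtain ⟨b, hb1, hb2, hb3⟩ := fib_coprime hq hqc
        have h5 : (PS m S).filter (fun b => (q : ZMod m) * b = c) = {b} := by
          ext b'
          rw [mem_filter, mem_singleton]
          constructor
          · rintro ⟨h6, h7⟩
            refine hb3 b' h7 ?_
            intro h8
            apply hqS
            rw [← mem_PS.mp h6]
            exact Nat.mem_primeFactors.mpr ⟨hq, h8, hord0 b'⟩
          · rintro rfl
            exact ⟨mem_PS.mpr (by rw [hb2, hcS]), hb1⟩
        rw [h5, card_singleton]
        rfl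
    have h4 : ∑ c ∈ univ.filter (fun c => ¬ c ∈ PS m S), n c * ((g c : ℤ) : ZMod 2) = 0 := by
      refine sum_involution (fun a _ => -a) ?_ ?_ ?_ ?_
      · intro c hc
        rw [mem_filter] at hc
        have h5 : ((g (-c) : ℤ) : ZMod 2) = ((g c : ℤ) : ZMod 2) := by
          rw [hg c, Int.cast_neg, ZMod.neg_eq_self_mod_two]
        rw [h5, ← add_mul, hnneg]
        by_cases hgc : g c = 0
        · rw [hgc]
          simp
        obtain ⟨b0, hb0⟩ := hs c hgc
        have h6 : ((((PS m S).filter (fun b => (q : ZMod m) * b = c)).card : ℕ) : ZMod 2) = 0 := by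
          by_cases hex : ((PS m S).filter (fun b => (q : ZMod m) * b = c)).Nonempty
          · obtain ⟨b1, hb1⟩ := hex
            rw [mem_filter] at hb1
            obtain ⟨hb1, hb1c⟩ := hb1
            have hb1S := mem_PS.mp hb1
            have h7 := order_prime_mul hq b1
            rw [hb1c] at h7
            have hqb1 : q ∣ addOrderOf b1 := by
              by_contra h8
              rw [if_neg h8] at h7
              exact hc.2 (mem_PS.mpr (by rw [h7, hb1S]))
            rw [if_pos hqb1] at h7
            obtain ⟨e, he⟩ := hqb1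
            rw [he, Nat.mul_div_cancel_left _ hq.pos] at h7
            have he0 : e ≠ 0 := fun h => hord0 b1 (by rw [he, h, mul_zero])
            have hqS : q ∈ S := by
              rw [← hb1S, he]
              exact Nat.mem_primeFactors.mpr ⟨hq, Dvd.intro _ rfl, by
                rw [← he]
                exact hord0 b1⟩
            have hSe : S = {q} ∪ e.primeFactors := by
              rw [← hb1S, he, Nat.primeFactors_mul hq.ne_zero he0, Nat.Prime.primeFactors hq]
            have hqe : ¬ q ∣ e := by
              intro h8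
              apply hc.2
              rw [mem_PS, h7, hSe]
              symm
              apply union_eq_right.mpr
              rw [singleton_subset_iff]
              exact Nat.mem_primeFactors.mpr ⟨hq, h8, he0⟩
            have hqc : ¬ q ∣ addOrderOf c := by rwa [h7]
            obtain ⟨b, hb1', hb2, hb3⟩ := fib_coprime hq hqc
            have h9 : (PS m S).filter (fun b => (q : ZMod m) * b = c) =
                (univ.filter fun x : ZMod m => (q : ZMod m) * x = (q : ZMod m) * b0).erase b := by
              ext b'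
              rw [mem_filter, mem_erase, mem_filter, ← hb0]
              constructor
              · rintro ⟨h10, h11⟩
                refine ⟨?_, mem_univ _, h11⟩
                rintro rfl
                apply hqc
                rw [← hb2]
                rw [← mem_PS.mp h10] at hqS
                exact Nat.dvd_of_mem_primeFactors hqS
              · rintro ⟨h10, -, h11⟩
                refine ⟨?_, h11⟩
                have h12 : q ∣ addOrderOf b' := by
                  by_contra h13
                  exact h10 (hb3 b' h11 h13)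
                have h14 := order_prime_mul hq b'
                rw [h11, if_pos h12] at h14
                obtain ⟨e', he'⟩ := h12
                rw [he', Nat.mul_div_cancel_left _ hq.pos] at h14
                rw [mem_PS, he', ← h14, h7, hSe, Nat.primeFactors_mul hq.ne_zero he0,
                  Nat.Prime.primeFactors hq]
            have h10 : b ∈ univ.filter fun x : ZMod m => (q : ZMod m) * x = (q : ZMod m) * b0 := by
              rw [mem_filter]
              exact ⟨mem_univ _, by rw [hb1', hb0]⟩
            rw [h9, card_erase_of_mem h10, card_fib' hq hqm b0]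
            have h8 : q % 2 = 1 := hq.eq_two_or_odd.resolve_left fun h => h2S (h ▸ hqS)
            have h11 : (q - 1) % 2 = 0 := by
              have := hq.one_le
              omega
            rw [← ZMod.natCast_mod, h11]
            rfl
          · rw [Finset.not_nonempty_iff_eq_empty] at hex
            rw [hex]
            simp
        rw [h6, zero_mul]
      · intro c hc hne' heq
        apply hne'
        have h5 : g c = 0 := by
          have h6 := hg c
          rw [heq] at h6
          omega
        rw [h5]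
        simp
      · intro c hc
        rw [mem_filter] at hc ⊢
        refine ⟨mem_univ _, fun h => hc.2 ?_⟩
        have := neg_mem_PS h
        rwa [neg_neg] at this
      · intro c _
        exact neg_neg c
    rw [h3, h4, one_mul, add_zero]
  rw [delF_apply]
  have h3 : ∀ b ∈ PS m S, hw b * ((rel q g b : ℤ) : ZMod 2) =
      hw b * ((g ((q : ZMod m) * b) : ℤ) : ZMod 2) - hw b * ((g b : ℤ) : ZMod 2) := by
    intro b _
    unfold rel
    push_cast
    ring
  rw [sum_congr rfl h3, sum_sub_distrib, h1, h2, ← delF_apply, sub_self]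

lemma delF_relSub {S : Finset ℕ} (hne : S.Nonempty) (h2S : 2 ∉ S) {F : ZMod m → ℤ}
    (hF : F ∈ relSub m) : delF m S F = 0 := by
  unfold relSub at hF
  induction hF using AddSubgroup.closure_induction with
  | mem x hx =>
    obtain ⟨q, g, hq, hqm, hg, hs, rfl⟩ := hx
    exact delF_rel hne h2S hq hqm hg hs
  | zero => exact map_zero _
  | add x y _ _ hx hy => rw [map_add, hx, hy, add_zero]
  | neg x _ hx => rw [map_neg, hx, neg_zero]

end Pool.Agent.Lib.MP_938ce2_ag_h99z
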