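import Pool.Agent.Lib.MP_938ce2_ag_h99z.Z01
import Pool.Agent.Lib.MP_938ce2_ag_h99z.Z00
import Pool.Agent.Lib.MP_938ce2_ag_h99t.RefTheta
import Pool.Agent.Lib.MP_938ce2_ag_h99x.K02

/-!
The class of a set of primes `3` modulo `4`, and its half sums.
-/

set_option autoImplicit false
set_option linter.style.haveILetI false
set_option linter.unusedSectionVars false

open Finset

namespace Pool.Agent.Lib.MP_938ce2_ag_h99z

open Pool.Agent.Lib.MP_938ce2_ag_h99 Pool.Agent.Lib.MP_938ce2_ag_h6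
open Pool.Agent.Lib.MP_938ce2_ag_h99t Pool.Agent.Lib.MP_938ce2_ag_h99v
open Pool.Agent.Lib.MP_938ce2_ag_h99y (hw two_zmod)

variable {m : ℕ} [NeZero m]

/-- the number of residues all of whose signs are one is odd -/
lemma odd_residues {T : Finset ℕ} (hT : P3 T) {f : ℕ} [NeZero f] (hf : f = fJ T) :
    (((univ.filter fun u : (ZMod f)ˣ => ∀ p ∈ T, ch p ((u : ZMod f).val : ℤ) = 1).card : ℕ) :
      ZMod 2) = 1 := by
  classical
  set Q := univ.filter fun u : (ZMod f)ˣ => ∀ p ∈ T, ch p ((u : ZMod f).val : ℤ) = 1 with hQ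
  have hpf : ∀ p ∈ T, (p : ℤ) ∣ (f : ℤ) := by
    intro p hp
    rw [hf, hT.fJ]
    exact_mod_cast dvd_prod_of_mem (fun p : ℕ => p) hp
  have hval : ∀ (x : ZMod f) (k : ℤ), (k : ZMod f) = x → ∀ p ∈ T, ch p (x.val : ℤ) = ch p k := by
    intro x k hk p hp
    apply ch_congr
    rw [hT.ep hp]
    refine (hpf p hp).trans ?_
    rw [← ZMod.intCast_zmod_eq_zero_iff_dvd]
    push_cast
    rw [hk, ZMod.natCast_zmod_val, sub_self]
  have hone : ∀ p ∈ T, ch p 1 = 1 := by
    intro p hp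
    have h1 := ch_mul p 1 1
    rw [mul_one] at h1
    rcases ch_sign (p := p) (hT p hp).1 (a := 1) (by
      intro h
      have h2 := Int.natCast_dvd_natCast.mp (by exact_mod_cast h : (p : ℤ) ∣ ((1 : ℕ) : ℤ))
      exact (hT p hp).1.one_lt.ne' (Nat.dvd_one.mp h2)) with h3 | h3
    · exact h3
    · rw [h3] at h1
      norm_num at h1
  have h1Q : (1 : (ZMod f)ˣ) ∈ Q := by
    rw [hQ, mem_filter]
    refine ⟨mem_univ _, fun p hp => ?_⟩
    rw [hval _ 1 (by simp) p hp]
    exact hone p hp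
  have hinv : ∀ u ∈ Q, u⁻¹ ∈ Q := by
    intro u hu
    rw [hQ, mem_filter] at hu ⊢
    refine ⟨mem_univ _, fun p hp => ?_⟩
    have h1 := hval (1 : ZMod f) (((u : ZMod f).val : ℤ) * (((u⁻¹ : (ZMod f)ˣ) : ZMod f).val : ℤ))
      (by
        push_cast
        rw [ZMod.natCast_zmod_val, ZMod.natCast_zmod_val, Units.mul_inv]) p hp
    rw [hval (1 : ZMod f) 1 (by simp) p hp, hone p hp, ch_mul, hu.2 p hp, one_mul] at h1
    exact h1.symm
  have hfix : ∀ u ∈ Q, u⁻¹ = u → u = 1 := by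
    intro u hu h
    rw [hQ, mem_filter] at hu
    have h1 : (u : ZMod f) * u = 1 := by
      have h2 : u * u = 1 := by
        nth_rewrite 1 [← h]
        exact inv_mul_cancel u
      have h3 := congrArg Units.val h2
      rwa [Units.val_mul, Units.val_one] at h3
    set k : ℤ := ((u : ZMod f).val : ℤ) with hk
    have h2 : (f : ℤ) ∣ k * k - 1 := by
      rw [← ZMod.intCast_zmod_eq_zero_iff_dvd, hk]
      push_cast
      rw [ZMod.natCast_zmod_val, h1, sub_self]
    have h3 : ∀ p ∈ T, (p : ℤ) ∣ k - 1 := by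
      intro p hp
      have hpp := (hT p hp).1
      have h4 : (p : ℤ) ∣ (k - 1) * (k + 1) := by
        have h5 := (hpf p hp).trans h2
        have h6 : (k - 1) * (k + 1) = k * k - 1 := by ring
        rwa [h6]
      rcases (Nat.prime_iff_prime_int.mp hpp).dvd_or_dvd h4 with h5 | h5
      · exact h5
      · exfalso
        have h6 : ch p k = ch p (-1) := by
          apply ch_congr
          rw [hT.ep hp]
          have : k - -1 = k + 1 := by ring
          rwa [this]
        rw [hu.2 p hp, ch_neg_one hpp (Or.inr (hT p hp).2)] at h6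
        norm_num at h6
    have h4 : (f : ℤ) ∣ k - 1 := by
      rw [hf, hT.fJ]
      push_cast
      refine Finset.prod_dvd_of_coprime ?_ h3
      intro p hp q hq hpq
      show IsCoprime (p : ℤ) (q : ℤ)
      rw [Nat.isCoprime_iff_coprime]
      exact (Nat.coprime_primes (hT p hp).1 (hT q hq).1).mpr hpq
    rw [← ZMod.intCast_zmod_eq_zero_iff_dvd, hk] at h4
    push_cast at h4
    rw [ZMod.natCast_zmod_val, sub_eq_zero] at h4
    exact Units.ext h4
  have h0 : ∑ _u ∈ Q.erase 1, (1 : ZMod 2) = 0 := by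
    refine sum_involution (fun u _ => u⁻¹) ?_ ?_ ?_ ?_
    · intro u _
      exact two_zmod 1
    · intro u hu _ h
      rw [mem_erase] at hu
      exact hu.1 (hfix u hu.2 h)
    · intro u hu
      rw [mem_erase] at hu ⊢
      exact ⟨by simpa using hu.1, hinv u hu.2⟩
    · intro u _
      exact inv_inv u
  rw [← insert_erase h1Q, card_insert_of_notMem (notMem_erase _ _)]
  rw [sum_const, nsmul_eq_mul, mul_one] at h0
  push_cast
  rw [h0, zero_add]

/-- the half sum of the set of residues -/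
lemma delF_BJ {T : Finset ℕ} (hT : P3 T) (hne : T.Nonempty) (hm : fJ T ∣ m) :
    delF m T (oddPart (BJ m T)) = 1 := by
  classical
  haveI : NeZero (fJ T) := ⟨f_ne_zero hm⟩
  rw [delF_oddPart hne hT.two, ← odd_residues hT rfl]
  set φ : (ZMod (fJ T))ˣ → ZMod m := fun u => jj hm (u : ZMod (fJ T)) with hφ
  have hinj : Set.InjOn φ ((univ : Finset (ZMod (fJ T))ˣ) : Set _) := by
    intro u _ v _ huv
    exact Units.ext (jj_injective hm huv)
  have himg : univ.image φ ⊆ PS m T := by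
    intro a ha
    rw [mem_image] at ha
    obtain ⟨u, -, rfl⟩ := ha
    rw [mem_PS, hφ]
    simp only
    rw [addOrderOf_unit hm u, Pool.Agent.Lib.MP_938ce2_ag_h99x.fJ_primeFactors hT.PJ]
  rw [← sum_subset himg, sum_image hinj, card_filter]
  · push_cast
    refine sum_congr rfl fun u _ => ?_
    have h1 := count_BJ hm rfl (u : ZMod (fJ T))
    have h2 : (((BJ m T).count (φ u) : ℕ) : ZMod 2) =
        ((((BJ m T).count (φ u) : ℕ) : ℤ) : ZMod 2) := by push_cast; rfl
    rw [h2]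
    show ((((BJ m T).count (jj hm (u : ZMod (fJ T))) : ℕ) : ℤ) : ZMod 2) = _
    rw [h1]
    split_ifs <;> simp
  · intro a ha hna
    have h1 : a ∉ BJ m T := by
      intro h
      rw [BJ_eq] at h
      have h' : a ∈ BE m T 1 := h
      obtain ⟨k, hk, h2, h3⟩ := exists_of_mem_BE hm h'
      have h4 : Nat.Coprime k (fJ T) := by
        by_contra h4
        exact not_all hT.good 1 h4 h3
      apply hna
      rw [mem_image]
      refine ⟨ZMod.unitOfCoprime k h4, mem_univ _, ?_⟩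
      rw [h2, ← jj_natCast hm]
      rfl
    rw [Multiset.count_eq_zero.mpr h1]
    simp

/-- the class of an even set of primes -/
lemma Cor.odd' {T : Finset ℕ} {E0 : ZMod m → ℤ} (h : Cor m T E0) :
    OddF (oddPart (BJ m T) - E0) := (oddPart_odd _).sub h.odd

lemma Cor.supp' {T : Finset ℕ} {E0 : ZMod m → ℤ} (h : Cor m T E0) (hT : P3 T) (hm : fJ T ∣ m)
    {a : ZMod m} (ha : (oddPart (BJ m T) - E0) a ≠ 0) : ∃ J, J ⊆ T ∧ addOrderOf a = fJ J := by
  by_cases h0 : E0 a = 0
  · rw [Pi.sub_apply, h0, sub_zero] at ha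
    exact ⟨T, Subset.refl T, BJ_supp hT.good hm ha⟩
  · obtain ⟨J, hJT, _, h3⟩ := h.supp a h0
    exact ⟨J, hJT, h3⟩

lemma Cor.ne {T J : Finset ℕ} (hev : Even T.card) (hJ : Odd J.card) : J ≠ T := by
  rintro rfl
  exact (Nat.not_odd_iff_even.mpr hev) hJ

lemma Cor.delF {T : Finset ℕ} {E0 : ZMod m → ℤ} (h : Cor m T E0) (hT : P3 T) (hne : T.Nonempty)
    (hev : Even T.card) (hm : fJ T ∣ m) :
    Pool.Agent.Lib.MP_938ce2_ag_h99z.delF m T (oddPart (BJ m T) - E0) = 1 := by
  have h0 : Pool.Agent.Lib.MP_938ce2_ag_h99z.delF m T E0 = 0 := by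
    apply delF_eq_zero
    intro a ha
    by_contra h1
    obtain ⟨J, hJT, hodd, h3⟩ := h.supp a h1
    have h4 := mem_PS.mp ha
    have hPJ : PJ J := fun p hp => hT.PJ p (hJT hp)
    rw [h3, Pool.Agent.Lib.MP_938ce2_ag_h99x.fJ_primeFactors hPJ] at h4
    exact Cor.ne hev hodd h4
  rw [map_sub, delF_BJ hT hne hm, h0, sub_zero]

/-- half sums over other sets -/
lemma Cor.delF_ne {T S : Finset ℕ} {E0 : ZMod m → ℤ} (h : Cor m T E0) (hT : P3 T)
    (hm : fJ T ∣ m) (hS : ¬ S ⊆ T) :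
    Pool.Agent.Lib.MP_938ce2_ag_h99z.delF m S (oddPart (BJ m T) - E0) = 0 := by
  apply delF_eq_zero
  intro a ha
  by_contra h1
  obtain ⟨J, hJT, h3⟩ := h.supp' hT hm h1
  have h4 := mem_PS.mp ha
  have hPJ : PJ J := fun p hp => hT.PJ p (hJT hp)
  rw [h3, Pool.Agent.Lib.MP_938ce2_ag_h99x.fJ_primeFactors hPJ] at h4
  exact hS (h4 ▸ hJT)

end Pool.Agent.Lib.MP_938ce2_ag_h99z
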