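import Pool.Agent.Lib.MP_938ce2_ag_h99z.Z02

/-!
The class of an even set of primes `3` modulo `4` as an exceptional class of the descent.
-/

set_option autoImplicit false
set_option linter.style.haveILetI false
set_option linter.unusedSectionVars false

open Finset

namespace Pool.Agent.Lib.MP_938ce2_ag_h99z

open Pool.Agent.Lib.MP_938ce2_ag_h99 Pool.Agent.Lib.MP_938ce2_ag_h6
open Pool.Agent.Lib.MP_938ce2_ag_h99t Pool.Agent.Lib.MP_938ce2_ag_h99v

variable {m : ℕ} [NeZero m]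

lemma halfF_ch {T : Finset ℕ} (hT : P3 T) {f : ℕ} [NeZero f] (hfT : f = fJ T) (hf1 : f ≠ 1)
    (hTf : f.primeFactors = T) :
    HalfF f (fun p u => if ch p ((u : ZMod f).val : ℤ) = 1 then 1 else 0) := by
  have hTg : Good T := hT.good
  unfold HalfF
  rw [hTf]
  refine ⟨?_, ?_⟩
  · intro p hpT x
    have hpf : ep p ∣ f := by
      rw [hfT]
      exact ep_dvd_fJ hpT
    have hx0 : (x : ZMod f) ≠ 0 := by
      intro h
      have h1 := ZMod.val_coe_unit_coprime x
      rw [h, ZMod.val_zero, Nat.coprime_zero_left] at h1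
      exact hf1 h1
    have h1 : (((-1) * x : (ZMod f)ˣ) : ZMod f) = -(x : ZMod f) := by
      rw [neg_one_mul, Units.val_neg]
    simp only [h1]
    rw [ch_neg_val (hTg p hpT).1 (hTg p hpT).2 hpf hx0]
    have h3 : ch p ((x : ZMod f).val : ℤ) = 1 ∨ ch p ((x : ZMod f).val : ℤ) = -1 := by
      apply ch_sign_of_coprime hTg _ hpT
      rw [← hfT]
      exact ZMod.val_coe_unit_coprime x
    rcases h3 with h3 | h3 <;> rw [h3] <;> norm_num
  · intro p hpT q hqT hpq z hz x
    have hpf : ep p ∣ f := by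
      rw [hfT]
      exact ep_dvd_fJ hpT
    haveI : NeZero (ep p) := ⟨(ep_pos (hTg p hpT).1).ne'⟩
    have h1 := cast_Kp (hTg p hpT).1 (hTg q hqT).1 hpq hpf hz
    have h2' : ch p (((z * x : (ZMod f)ˣ) : ZMod f).val : ℤ) = ch p ((x : ZMod f).val : ℤ) := by
      apply ch_congr
      have h3 : ((((z * x : (ZMod f)ˣ) : ZMod f).val : ℕ) : ZMod (ep p))
          = (((x : ZMod f).val : ℕ) : ZMod (ep p)) := by
        have h4 : ∀ y : ZMod f, ((y.val : ℕ) : ZMod (ep p)) = ZMod.castHom hpf (ZMod (ep p)) y := by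
          intro y
          conv_rhs => rw [← ZMod.natCast_zmod_val y]
          rw [map_natCast]
        rw [h4, h4, Units.val_mul, map_mul, h1, one_mul]
      rw [← ZMod.intCast_zmod_eq_zero_iff_dvd]
      push_cast
      push_cast at h3
      rw [h3, sub_self]
    simp only [h2']

theorem Cor.excT {T : Finset ℕ} {E0 : ZMod m → ℤ} (h : Cor m T E0) (hT : P3 T) (hne : T.Nonempty)
    (hev : Even T.card) {f : ℕ} (hf : f ∣ m) (hfT : f = fJ T) (hf1 : f ≠ 1)
    (hTf : f.primeFactors = T) {D : ℕ → Prop} (hD : ∀ g, g ∣ f → D g)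
    {X : AddSubgroup (ZMod m → ℤ)} (hX : oddPart (BJ m T) - E0 ∈ X ⊔ relSub m) :
    ExcT D X f hf := by
  have hf0 : f ≠ 0 := f_ne_zero hf
  haveI : NeZero f := ⟨hf0⟩
  have hTg : Good T := hT.good
  have hTm : fJ T ∣ m := by rwa [← hfT]
  refine ⟨fun p u => if ch p ((u : ZMod f).val : ℤ) = 1 then 1 else 0, oddPart (BJ m T) - E0,
    halfF_ch hT hfT hf1 hTf, hX, h.odd', h.tate, ?_, ?_⟩
  · intro a ha
    obtain ⟨J, hJT, h3⟩ := h.supp' hT hTm ha
    have h4 : fJ J ∣ f := by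
      rw [hfT]
      exact fJ_dvd hJT
    rw [h3]
    exact ⟨Nat.le_of_dvd (Nat.pos_of_ne_zero hf0) h4, hD _ h4⟩
  · intro u
    have h1 : E0 (jj hf (u : ZMod f)) = 0 := by
      by_contra h0
      obtain ⟨J, hJT, hodd, h3⟩ := h.supp _ h0
      rw [addOrderOf_unit hf u, hfT] at h3
      exact fJ_ne hTg hJT (Cor.ne hev hodd) h3.symm
    rw [Pi.sub_apply, h1, sub_zero, hTf]
    exact BJ_top hTg hne hf hfT u

end Pool.Agent.Lib.MP_938ce2_ag_h99z
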