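import Pool.Agent.Lib.MP_938ce2_ag_h99z.Z03
import Pool.Agent.Lib.MP_938ce2_ag_sc.Cover2

/-!
Signed values of the class of an even set of primes `3` modulo `4`; its double.
-/

set_option autoImplicit false
set_option linter.style.haveILetI false
set_option linter.unusedSectionVars false

open Finset

namespace Pool.Agent.Lib.MP_938ce2_ag_h99z

open Pool.Agent.Lib.MP_938ce2_ag_h99 Pool.Agent.Lib.MP_938ce2_ag_h6
open Pool.Agent.Lib.MP_938ce2_ag_h99t Pool.Agent.Lib.MP_938ce2_ag_h99v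
open Pool.Agent.Lib.MP_938ce2_ag_h99x

variable {m : ℕ} [NeZero m]

lemma Cor.val {T : Finset ℕ} {E0 : ZMod m → ℤ} (h : Cor m T E0) (hT : P3 T) (hne : T.Nonempty)
    (hev : Even T.card) (hm : fJ T ∣ m) (ε : ℕ → ℤˣ) :
    Pool.Agent.Lib.MP_938ce2_ag_h99x.val (oddPart (BJ m T) - E0) T ε =
      ∏ p ∈ T, (if ε p = 1 then 1 else 0) - ∏ p ∈ T, (1 - (if ε p = 1 then 1 else 0)) := by
  have hf0 : fJ T ≠ 0 := f_ne_zero hm
  haveI : NeZero (fJ T) := ⟨hf0⟩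
  have hPJ := hT.PJ
  obtain ⟨u, hu⟩ := exists_unit_of_order hm (addOrderOf_cr hPJ hm ε)
  have hu' : (u : ZMod (fJ T)) = ((cr T ε : ℤ) : ZMod (fJ T)) := by
    apply jj_injective hm
    rw [hu, pt_eq_jj hm]
  unfold Pool.Agent.Lib.MP_938ce2_ag_h99x.val
  rw [← hu]
  have h1 : E0 (jj hm (u : ZMod (fJ T))) = 0 := by
    by_contra h0
    obtain ⟨J, hJT, hodd, h3⟩ := h.supp _ h0
    rw [addOrderOf_unit hm u] at h3
    exact fJ_ne hT.good hJT (Cor.ne hev hodd) h3.symm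
  rw [Pi.sub_apply, h1, sub_zero, BJ_top hT.good hne hm rfl u]
  have h2 : ∀ p ∈ T, ch p ((u : ZMod (fJ T)).val : ℤ) = ((ε p : ℤˣ) : ℤ) := by
    intro p hp
    have h3 : ch p ((u : ZMod (fJ T)).val : ℤ) = ch p (cr T ε) := by
      apply ch_congr
      have h4 : (ep p : ℤ) ∣ (fJ T : ℤ) := by exact_mod_cast ep_dvd_fJ hp
      refine h4.trans ?_
      rw [← ZMod.intCast_zmod_eq_zero_iff_dvd]
      push_cast
      rw [ZMod.natCast_zmod_val, hu', sub_self]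
    rw [h3, ch_cr hPJ ε hp, ch_unit_three (hT p hp).1 (by rw [(hT p hp).2]; norm_num)]
  have h5 : ∀ p ∈ T, (ch p ((u : ZMod (fJ T)).val : ℤ) = 1) = (ε p = 1) := by
    intro p hp
    rw [h2 p hp]
    simp only [Units.val_eq_one]
  congr 1
  · refine prod_congr rfl fun p hp => ?_
    simp only [h5 p hp]
  · refine prod_congr rfl fun p hp => ?_
    simp only [h5 p hp]

lemma Cor.om0 {T : Finset ℕ} {E0 : ZMod m → ℤ} (h : Cor m T E0) (hT : P3 T)
    (hev : Even T.card) (hm : fJ T ∣ m) {x0 : ℕ} (hx0 : x0 ∈ T) :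
    Om0 (oddPart (BJ m T) - E0) T x0 = 1 := by
  have hne : T.Nonempty := ⟨x0, hx0⟩
  unfold Om0
  rw [Finset.sum_eq_single ∅]
  · rw [h.val hT hne hev hm]
    have h1 : ∀ p ∈ T, (if sJ ∅ p = 1 then (1 : ℤ) else 0) = 1 := by
      intro p _
      unfold sJ
      simp
    rw [prod_congr rfl h1, prod_const_one, prod_eq_zero hx0, sub_zero]
    rw [h1 x0 hx0, sub_self]
  · intro J hJ hJ0
    rw [mem_powerset] at hJ
    rw [h.val hT hne hev hm]
    obtain ⟨y, hy⟩ := Finset.nonempty_iff_ne_empty.mpr hJ0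
    have hyT : y ∈ T := mem_of_mem_erase (hJ hy)
    rw [prod_eq_zero hyT, prod_eq_zero hx0, sub_self]
    · unfold sJ
      have : x0 ∉ J := fun h => (notMem_erase x0 T) (hJ h)
      rw [if_neg this, if_pos rfl, sub_self]
    · unfold sJ
      rw [if_pos hy, if_neg]
      decide
  · intro h0
    exact absurd (empty_mem_powerset _) h0

lemma Cor.excP {T : Finset ℕ} {E0 : ZMod m → ℤ} (h : Cor m T E0) (hT : P3 T)
    (hne : T.Nonempty) (hev : Even T.card) (hm : fJ T ∣ m)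
    {X : AddSubgroup (ZMod m → ℤ)} (hX : oddPart (BJ m T) - E0 ∈ X ⊔ relSub m) : ExcP X T := by
  obtain ⟨x0, hx0⟩ := hne
  have hf0 : 0 < fJ T := Pool.Agent.Lib.MP_938ce2_ag_h99v.fJ_pos hT.PJ
  refine ⟨oddPart (BJ m T) - E0, ⟨hX, h.odd', h.tate⟩, ?_, x0, hx0, ?_⟩
  · intro a ha
    obtain ⟨J, hJT, h3⟩ := h.supp' hT hm ha
    rw [h3]
    exact ⟨(fJ_dvd hJT).trans (Nat.dvd_lcm_right _ _), Nat.le_of_dvd hf0 (fJ_dvd hJT)⟩
  · rw [h.om0 hT hev hm hx0]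
    exact odd_one

/-- the double of a Tate function is a combination of relations, for twice an odd number -/
theorem two_mem {n : ℕ} (hn : n % 4 = 2) : ∃ N ≠ 0, ∀ (M : ℕ) [NeZero M], N ∣ M →
    ∀ F : ZMod M → ℤ, OddF F → TateF F → (∀ a, F a ≠ 0 → addOrderOf a ∣ n) →
      (2 : ℤ) • F ∈ relSub M := by
  have hn0 : n ≠ 0 := by rintro rfl; omega
  have hev : Even n := by
    rw [Nat.even_iff]
    omega
  obtain ⟨l1, l2, hp1, hp2, h1, h2, he1, he2, hg⟩ :=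
    Pool.Agent.Lib.MP_938ce2_ag_sc.exists_two_primes hev hn0
  refine ⟨n * (l1 * l2), mul_ne_zero hn0 (mul_ne_zero hp1.ne_zero hp2.ne_zero), ?_⟩
  intro M _ hM F ho hT hs
  have hnM : n ∣ M := (Dvd.intro _ rfl).trans hM
  have hl : l1 * l2 ∣ M := (Dvd.intro_left _ rfl).trans hM
  have hl1 : l1 ∣ M := (Dvd.intro _ rfl).trans hl
  have hl2 : l2 ∣ M := (Dvd.intro_left _ rfl).trans hl
  have h3 := Pool.Agent.Lib.MP_938ce2_ag_sc.core_even hnM dvd_rfl hp1 hp2 h1 h2 hl1 hl2 he1 he2 hg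
    ho hT hs
  obtain ⟨k, hk⟩ : ∃ k, n = 2 * k := ⟨n / 2, by omega⟩
  refine Pool.Agent.Lib.MP_938ce2_ag_sc.mem_of_odd_mul (c := (k : ℤ)) ?_
    (Pool.Agent.Lib.MP_938ce2_ag_sc.odd_zsmul 2 ho) (Pool.Agent.Lib.MP_938ce2_ag_sc.tate_zsmul 2 hT) ?_
  · have : Odd k := by
      rw [Nat.odd_iff]
      omega
    exact_mod_cast this
  · rw [smul_smul]
    have e : ((k : ℤ) * 2) = (n : ℤ) := by
      rw [hk]
      push_cast
      ring
    rw [e]
    exact h3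

end Pool.Agent.Lib.MP_938ce2_ag_h99z
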