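import Pool.Agent.Lib.MP_938ce2_ag_h99z.Z04

/-!
The descent with the classes of sets of effective primes.
-/

set_option autoImplicit false
set_option linter.style.haveILetI false
set_option linter.unusedSectionVars false

open Finset

namespace Pool.Agent.Lib.MP_938ce2_ag_h99z

open Pool.Agent.Lib.MP_938ce2_ag_h99 Pool.Agent.Lib.MP_938ce2_ag_h6
open Pool.Agent.Lib.MP_938ce2_ag_h99t Pool.Agent.Lib.MP_938ce2_ag_h99v
open Pool.Agent.Lib.MP_938ce2_ag_h99x
open Pool.Agent.Lib.MP_938ce2_ag_h99w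

variable {m : ℕ} [NeZero m]

theorem gen_aux3 {m0 : ℕ} (hm0 : Nat.lcm 2 m0 ∣ m) {l : ℕ} (hl : 1 ≤ l)
    {X : AddSubgroup (ZMod m → ℤ)} (hrX : relSub m ≤ X) {Q : ℕ → ℕ → Prop}
    (hP : ∀ p q, Eff m0 p → Eff m0 q → p < q → Q p q → PX X p q)
    (hE : ∀ S : Finset ℕ, (∀ p ∈ S, Eff m0 p ∧ p ≤ l + 1) → 4 ≤ S.card → Even S.card → ExcP X S)
    (ha : ∀ p q, p < q → Eff m0 p → Eff m0 q →
      Q p q ∨ (if p = 3 then 4 * l + 1 else 2 * l + 1) < q)
    {F : ZMod m → ℤ} (ho : OddF F) (hT : TateF F) (hN : ∑ a, |F a| ≤ 2 * l)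
    (hs : ∀ a, F a ≠ 0 → addOrderOf a ∣ m0) : F ∈ X := by
  classical
  set n0 := Nat.lcm 2 m0 with hn0
  have h2n : 2 ∣ n0 := Nat.dvd_lcm_left 2 m0
  have h2m : 2 ∣ m := h2n.trans hm0
  have hmn : m0 ∣ n0 := Nat.dvd_lcm_right 2 m0
  have hn00 : n0 ≠ 0 := fun h => NeZero.ne m (by rw [h] at hm0; exact Nat.eq_zero_of_zero_dvd hm0)
  have h6 : 3 ∣ n0 → 6 ∣ n0 := by
    intro h3
    omega
  have hXX : X ⊔ relSub m = X := sup_eq_left.mpr hrX
  -- the large primes
  obtain ⟨F1, a1, a2, a3, a4, a5⟩ := drop_all5 X h2m (N := 2 * l) (m0 := n0) h6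
    (n0.primeFactors.filter (2 * l + 1 < ·)) (by
      intro q hq
      rw [mem_filter] at hq
      have hqp := Nat.prime_of_mem_primeFactors hq.1
      have hqm := Nat.dvd_of_mem_primeFactors hq.1
      have hlq := hq.2
      have hlq' : ((2 * l + 1 : ℕ) : ℤ) < q := by exact_mod_cast hlq
      push_cast at hlq'
      refine ⟨hqp, by omega, by linarith, ?_⟩
      intro h3 hqm' hq32
      left
      have hq4 : q ≤ 4 * l + 1 := by
        have : (q : ℤ) ≤ ((4 * l + 1 : ℕ) : ℤ) := by
          push_cast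
          linarith
        exact_mod_cast this
      have e3 : Eff m0 3 := Eff.of_dvd_lcm (f := 3) (by norm_num) h3 (by
        rw [Nat.Prime.primeFactors Nat.prime_three]
        exact mem_singleton_self 3)
      have eq : Eff m0 q := Eff.of_dvd_lcm (f := q) (by
        have := hqp.eq_two_or_odd
        omega) hqm (by
        rw [Nat.Prime.primeFactors hqp]
        exact mem_singleton_self q)
      rcases ha 3 q (by omega) e3 eq with h5 | h5
      · have h7 := ref3_PX ((h6 h3).trans hm0) hqp (by omega) hqm'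
          (hP 3 q e3 eq (by omega) h5)
        rwa [hXX] at h7
      · rw [if_pos rfl] at h5
        omega) F ho hT hN (fun a ha => (hs a ha).trans hmn)
  -- the condition on the orders
  set D : ℕ → Prop := fun k => k ∣ n0 ∧ ∀ p, p.Prime → p ∣ k → p ≤ 2 * l + 1 with hD
  have hDc : ∀ f g, D f → g ∣ f → D g := fun f g h1 h2 =>
    ⟨h2.trans h1.1, fun p hp hpg => h1.2 p hp (hpg.trans h2)⟩
  have hs1 : ∀ a, F1 a ≠ 0 → D (addOrderOf a) := by
    intro a ha
    obtain ⟨b1, b2⟩ := a5 a ha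
    have b3 : addOrderOf a ∣ n0 := by
      rcases b1 with b1 | b1
      · exact (hs a b1).trans hmn
      · exact b1.2.trans (h6 b1.1)
    refine ⟨b3, fun p hp hpa => ?_⟩
    by_contra h
    exact b2 p (by
      rw [mem_filter, Nat.mem_primeFactors]
      exact ⟨⟨hp, hpa.trans b3, hn00⟩, by omega⟩) hpa
  -- levels with four effective primes
  obtain ⟨F2, b1, b2, b3, _, b5, b6⟩ := four_outD hDc (l := l) a2 a3 a4 hs1
  -- the descent
  set D2 : ℕ → Prop := fun k => D k ∧ (4 ≤ (effP k).card → ∀ p, p.Prime → p ∣ k → p ≤ l + 1)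
    with hD2
  have hD2c : ∀ f g, D2 f → g ∣ f → D2 g := by
    intro f g h1 h2
    have hf0 : f ≠ 0 := fun h => hn00 (by
      have := h1.1.1
      rw [h] at this
      exact Nat.eq_zero_of_zero_dvd this)
    refine ⟨hDc f g h1.1 h2, fun h4 p hp hpg => ?_⟩
    exact h1.2 (h4.trans (card_le_card (effP_mono h2 hf0))) p hp (hpg.trans h2)
  have hF2 : F2 ∈ X ⊔ relSub m := by
    refine mainA_aux hD2c X ?_ m F2 b2 b3 (fun a _ => Nat.le_of_dvd
      (Nat.pos_of_ne_zero (NeZero.ne m)) (addOrderOf_dvd_m a)) (fun a ha => ⟨b6 a ha, b5 a ha⟩)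
    intro f hf hDf hf1 hf4 hfr
    have hf0 : f ≠ 0 := f_ne_zero hf
    have hfn : f ∣ n0 := hDf.1.1
    set L := f.primeFactors with hL
    have hfL : f = fJ L := eff_prod hf0 hf4 hfr
    have hPJ : PJ L := fun p hp => Nat.prime_of_mem_primeFactors hp
    have hne : L.Nonempty := by
      rw [hL, Nat.nonempty_primeFactors]
      omega
    have hEff : ∀ p ∈ L, Eff m0 p := fun p hp => Eff.of_dvd_lcm hf4 hfn hp
    have hle2 : ∀ p ∈ L, p ≤ 2 * l + 1 := fun p hp =>
      hDf.1.2 p (hPJ p hp) (Nat.dvd_of_mem_primeFactors hp)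
    have key : Even L.card → ExcP X L := by
      intro hev
      have hpos : 0 < L.card := hne.card_pos
      rcases (by obtain ⟨k, hk⟩ := hev; omega : L.card = 2 ∨ 4 ≤ L.card) with hc | hc
      · obtain ⟨p', q', hpq', hp'⟩ := Finset.card_eq_two.mp hc
        obtain ⟨p, q, hpq, hp⟩ : ∃ p q, p < q ∧ L = {p, q} := by
          rcases lt_or_gt_of_ne hpq' with h | h
          · exact ⟨p', q', h, hp'⟩
          · exact ⟨q', p', h, by rw [hp', pair_comm]⟩
        have hpm : p ∈ L := by rw [hp]; simp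
        have hqm : q ∈ L := by rw [hp]; simp
        have hNB : Q p q := by
          rcases ha p q hpq (hEff p hpm) (hEff q hqm) with h5 | h5
          · exact h5
          · exfalso
            have := hle2 q hqm
            split_ifs at h5 <;> omega
        have hpp := hPJ p hpm
        have hqq := hPJ q hqm
        have hfe : ep p * ep q ∣ m := by
          have h7 : fJ L = ep p * ep q := by
            rw [hp]
            unfold fJ
            rw [prod_pair hpq.ne]
          rw [← h7, ← hfL]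
          exact hf
        rw [hp]
        exact PX.excP hpp hqq hpq.ne hfe (hP p q (hEff p hpm) (hEff q hqm) hpq hNB)
      · have hsm : ∀ p ∈ L, p ≤ l + 1 := fun p hp => hDf.2 (by
          rw [effP_eq hf4]
          exact hc) p (hPJ p hp) (Nat.dvd_of_mem_primeFactors hp)
        exact hE L (fun p hp => ⟨hEff p hp, hsm p hp⟩) hc hev
    have hfm' : fJ L ∣ m := by rw [← hfL]; exact hf
    have hDf' : D2 (fJ L) := by rw [← hfL]; exact hDf
    rw [hfL]
    refine step_excP hD2c hPJ hne hfm' hDf' ?_ key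
    intro g hg _
    rw [← hfL] at hg
    have hgp : ∀ p, p.Prime → p ∣ g → p = 2 ∨ p ∣ f := by
      intro p hp hpg
      rcases hp.dvd_lcm.mp (hpg.trans hg) with h7 | h7
      · exact Or.inl ((Nat.prime_dvd_prime_iff_eq hp Nat.prime_two).mp h7)
      · exact Or.inr h7
    refine ⟨⟨hg.trans (Nat.lcm_dvd h2n hfn), ?_⟩, ?_⟩
    · intro p hp hpg
      rcases hgp p hp hpg with h7 | h7
      · omega
      · exact hDf.1.2 p hp h7
    · intro h4 p hp hpg
      rcases hgp p hp hpg with h7 | h7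
      · omega
      · exact hDf.2 (h4.trans (card_le_card (effP_lcm hf0 hg))) p hp h7
  rw [hXX] at hF2 a1
  have e : F = (F - F1) + (-(F2 - F1)) + F2 := by abel
  rw [e]
  exact X.add_mem (X.add_mem a1 (X.neg_mem (hrX b1))) hF2

end Pool.Agent.Lib.MP_938ce2_ag_h99z
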