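import Pool.Agent.Lib.MP_938ce2_ag_h99z.Z05

/-!
Combinations of the classes of even sets of primes `3` modulo `4`: they are detected by parities.
-/

set_option autoImplicit false
set_option linter.style.haveILetI false
set_option linter.unusedSectionVars false

open Finset

namespace Pool.Agent.Lib.MP_938ce2_ag_h99z

open Pool.Agent.Lib.MP_938ce2_ag_h99 Pool.Agent.Lib.MP_938ce2_ag_h6
open Pool.Agent.Lib.MP_938ce2_ag_h99t Pool.Agent.Lib.MP_938ce2_ag_h99v
open Pool.Agent.Lib.MP_938ce2_ag_h99x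

variable {M : ℕ} [NeZero M]

/-- combinations of the functions `E T`, up to relations -/
lemma mem_comb {A : Finset (Finset ℕ)} {E : Finset ℕ → ZMod M → ℤ} {F : ZMod M → ℤ}
    (hF : F ∈ relSub M ⊔ AddSubgroup.closure {F | ∃ T ∈ A, F = E T}) :
    ∃ (x : ZMod M → ℤ) (n : Finset ℕ → ℤ), x ∈ relSub M ∧ F = x + ∑ T ∈ A, n T • E T := by
  classical
  have key : ∀ G ∈ AddSubgroup.closure {F : ZMod M → ℤ | ∃ T ∈ A, F = E T},
      ∃ n : Finset ℕ → ℤ, G = ∑ T ∈ A, n T • E T := by
    intro G hG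
    induction hG using AddSubgroup.closure_induction with
    | mem x hx =>
      obtain ⟨p, hp, rfl⟩ := hx
      refine ⟨fun q => if q = p then 1 else 0, ?_⟩
      rw [Finset.sum_eq_single p]
      · beta_reduce
        rw [if_pos rfl, one_smul]
      · intro q _ hqp
        beta_reduce
        rw [if_neg hqp, zero_smul]
      · intro h
        exact absurd hp h
    | zero => exact ⟨fun _ => 0, by simp⟩
    | add x y _ _ hx hy =>
      obtain ⟨n, rfl⟩ := hx
      obtain ⟨n', rfl⟩ := hy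
      refine ⟨fun p => n p + n' p, ?_⟩
      rw [← sum_add_distrib]
      exact sum_congr rfl fun p _ => (add_smul _ _ _).symm
    | neg x _ hx =>
      obtain ⟨n, rfl⟩ := hx
      refine ⟨fun p => - n p, ?_⟩
      rw [← sum_neg_distrib]
      exact sum_congr rfl fun p _ => (neg_smul _ _).symm
  rw [AddSubgroup.mem_sup] at hF
  obtain ⟨x, hx, y, hy, rfl⟩ := hF
  obtain ⟨n, rfl⟩ := key y hy
  exact ⟨x, n, hx, rfl⟩

/-- combinations with even half sums are combinations of relations -/
theorem mem_of_comb {A : Finset (Finset ℕ)} (hA : ∀ T ∈ A, P3 T ∧ T.Nonempty)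
    {E : Finset ℕ → ZMod M → ℤ} (h2 : ∀ T ∈ A, (2 : ℤ) • E T ∈ relSub M)
    (h1 : ∀ T ∈ A, delF M T (E T) = 1)
    (h0 : ∀ T ∈ A, ∀ S ∈ A, ¬ S ⊆ T → delF M S (E T) = 0) {F : ZMod M → ℤ}
    (hF : F ∈ relSub M ⊔ AddSubgroup.closure {F | ∃ T ∈ A, F = E T})
    (hd : ∀ T ∈ A, delF M T F = 0) : F ∈ relSub M := by
  classical
  obtain ⟨x, n, hx, rfl⟩ := mem_comb hF
  have hev : ∀ T ∈ A, Even (n T) := by
    by_contra hcon
    push Not at hcon
    set B := A.filter fun T => ¬ Even (n T) with hB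
    have hBne : B.Nonempty := by
      obtain ⟨T, hT, hT'⟩ := hcon
      exact ⟨T, mem_filter.mpr ⟨hT, hT'⟩⟩
    obtain ⟨T, hTB, hmax⟩ := exists_max_image B (fun T => T.card) hBne
    rw [hB, mem_filter] at hTB
    obtain ⟨hTA, hTodd⟩ := hTB
    obtain ⟨hT3, hTne⟩ := hA T hTA
    have h3 := hd T hTA
    rw [map_add, delF_relSub hTne hT3.two hx, zero_add, map_sum, Finset.sum_eq_single T] at h3
    · rw [map_zsmul, h1 T hTA, zsmul_one] at h3
      have h4 : (2 : ℤ) ∣ n T := (ZMod.intCast_zmod_eq_zero_iff_dvd (n T) 2).mp h3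
      exact hTodd (even_iff_two_dvd.mpr h4)
    · intro T' hT' hne
      rw [map_zsmul]
      by_cases hsub : T ⊆ T'
      · have hlt : T.card < T'.card := card_lt_card (ssubset_of_subset_of_ne hsub (Ne.symm hne))
        have hev' : Even (n T') := by
          by_contra h4
          have h5 := hmax T' (mem_filter.mpr ⟨hT', h4⟩)
          omega
        obtain ⟨c, hc⟩ := hev'
        rw [hc, add_smul]
        exact Pool.Agent.Lib.MP_938ce2_ag_h99y.two_zmod _
      · rw [h0 T' hT' T hTA hsub, smul_zero]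
    · intro h
      exact absurd hTA h
  refine (relSub M).add_mem hx ((relSub M).sum_mem fun T hT => ?_)
  obtain ⟨c, hc⟩ := hev T hT
  have e : n T • E T = c • ((2 : ℤ) • E T) := by
    rw [smul_smul, hc]
    congr 1
    ring
  rw [e]
  exact (relSub M).zsmul_mem (h2 T hT) c

end Pool.Agent.Lib.MP_938ce2_ag_h99z
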