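import Pool.Agent.Lib.MP_938ce2_ag_h99z.Z06

/-!
Tate characters with effective primes `3` modulo `4`, all parities being even.
-/

set_option autoImplicit false
set_option linter.style.haveILetI false
set_option linter.unusedSectionVars false

open Finset

namespace Pool.Agent.Lib.MP_938ce2_ag_h99z

open Pool.Agent.Lib.MP_938ce2_ag_h99 Pool.Agent.Lib.MP_938ce2_ag_h6
open Pool.Agent.Lib.MP_938ce2_ag_h99t Pool.Agent.Lib.MP_938ce2_ag_h99v
open Pool.Agent.Lib.MP_938ce2_ag_h99x

/-- for all sets of an even number of odd primes: the number of elements of `s` whose order has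
these prime factors is even -/
def Par {m : ℕ} [NeZero m] (s : Multiset (ZMod m)) : Prop :=
  ∀ P : Finset ℕ, 2 ∉ P → P.Nonempty → Even P.card →
    Even (s.filter fun a => (addOrderOf a).primeFactors = P).card

lemma delF_lift {m M : ℕ} [NeZero m] [NeZero M] (hm : m ∣ M) {P : Finset ℕ} (hne : P.Nonempty)
    (h2 : 2 ∉ P) {s : Multiset (ZMod m)}
    (h : Even (s.filter fun a => (addOrderOf a).primeFactors = P).card) :
    delF M P (oddPart (s.map (jj hm))) = 0 := by
  classical
  rw [delF_oddPart hne h2]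
  have h1 : ∀ a ∈ PS M P, ((s.map (jj hm)).count a : ZMod 2) =
      ((((s.map (jj hm)).filter fun a => a ∈ PS M P).count a : ℕ) : ZMod 2) := by
    intro a ha
    rw [Multiset.count_filter, if_pos ha]
  rw [sum_congr rfl h1, ← Nat.cast_sum, Multiset.sum_count_eq_card (by
    intro a ha
    exact (Multiset.mem_filter.mp ha).2)]
  have h3 : ((s.map (jj hm)).filter fun a => a ∈ PS M P) =
      (s.filter fun a => (addOrderOf a).primeFactors = P).map (jj hm) := by
    rw [Multiset.filter_map]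
    congr 1
    apply Multiset.filter_congr
    intro a _
    rw [Function.comp_apply, mem_PS, addOrderOf_jj]
  rw [h3, Multiset.card_map]
  obtain ⟨k, hk⟩ := h
  rw [hk]
  push_cast
  exact Pool.Agent.Lib.MP_938ce2_ag_h99y.two_zmod _

/-- The parity theorem: published geometry only. -/
theorem tate_three (m : ℕ) [NeZero m] : ∃ N ≠ 0, m ∣ N ∧ ∀ (M : ℕ) [NeZero M], N ∣ M →
    ∀ (hm : m ∣ M) (s : Multiset (ZMod m)), IsTate s →
      (∀ p q, p < q → Eff m p → Eff m q → (p % 4 = 3 ∧ q % 4 = 3) ∨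
        (if p = 3 then 4 * s.card + 1 else 2 * s.card + 1) < q) → Par s →
      oddPart (s.map (jj hm)) ∈ relSub M := by
  classical
  set S3 := m.primeFactors.filter fun p => p % 4 = 3 with hS3
  set n := 2 * ∏ p ∈ S3, p with hn
  have hS3p : ∀ p ∈ S3, p.Prime ∧ p % 4 = 3 := by
    intro p hp
    rw [hS3, mem_filter] at hp
    exact ⟨Nat.prime_of_mem_primeFactors hp.1, hp.2⟩
  have hprod : Odd (∏ p ∈ S3, p) := by
    apply Finset.prod_induction _ _ (fun a b ha hb => ha.mul hb) odd_one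
    intro p hp
    rw [Nat.odd_iff]
    have := (hS3p p hp).2
    omega
  have hn4 : n % 4 = 2 := by
    obtain ⟨k, hk⟩ := hprod
    rw [hn, hk]
    omega
  have hl0 : Nat.lcm 2 m ≠ 0 := Nat.lcm_ne_zero two_ne_zero (NeZero.ne m)
  obtain ⟨N, hN, hNM⟩ := two_mem hn4
  refine ⟨N * Nat.lcm 2 m, mul_ne_zero hN hl0, (Nat.dvd_lcm_right 2 m).trans (Dvd.intro_left _ rfl),
    ?_⟩
  intro M _ hNM' hm s hs ha hpar
  have h1 : N ∣ M := (Dvd.intro _ rfl).trans hNM'
  have h2 : Nat.lcm 2 m ∣ M := (Dvd.intro_left _ rfl).trans hNM'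
  set s' := s.map (jj hm) with hs'
  have hT := hs.lift hm
  have hcard : s'.card = s.card := Multiset.card_map _ _
  by_cases hc0 : s.card = 0
  · have hs0 : s = 0 := Multiset.card_eq_zero.mp hc0
    rw [hs', hs0, Multiset.map_zero]
    have : oddPart (0 : Multiset (ZMod M)) = 0 := by
      funext a
      simp [oddPart]
    rw [this]
    exact AddSubgroup.zero_mem _
  have hl1 := l1_le s'
  -- the classes
  set A : Finset (Finset ℕ) := S3.powerset.filter fun T => T.Nonempty ∧ Even T.card with hA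
  have hAP : ∀ T ∈ A, P3 T ∧ T.Nonempty ∧ Even T.card ∧ T ⊆ S3 := by
    intro T hT
    rw [hA, mem_filter, mem_powerset] at hT
    exact ⟨fun p hp => hS3p p (hT.1 hp), hT.2.1, hT.2.2, hT.1⟩
  have hS3m : (∏ p ∈ S3, p) ∣ m :=
    (prod_dvd_prod_of_subset _ _ (fun p : ℕ => p) (filter_subset _ _)).trans
      (Nat.prod_primeFactors_dvd m)
  have hfJ : ∀ T, P3 T → T ⊆ S3 → fJ T ∣ ∏ p ∈ S3, p := by
    intro T hT hTS
    rw [hT.fJ]
    exact prod_dvd_prod_of_subset _ _ (fun p : ℕ => p) hTS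
  have hfM : ∀ T, P3 T → T ⊆ S3 → fJ T ∣ M := fun T hT hTS => ((hfJ T hT hTS).trans hS3m).trans hm
  have hcor : ∀ T : Finset ℕ, ∃ E0 : ZMod M → ℤ, T ∈ A → Cor M T E0 := by
    intro T
    by_cases hT : T ∈ A
    · obtain ⟨a1, a2, a3, a4⟩ := hAP T hT
      obtain ⟨E0, hE0⟩ := exists_cor a1 a2 (hfM T a1 a4)
      exact ⟨E0, fun _ => hE0⟩
    · exact ⟨0, fun h => absurd h hT⟩
  choose E0 hE0 using hcor
  set E : Finset ℕ → ZMod M → ℤ := fun T => oddPart (BJ M T) - E0 T with hE
  set X : AddSubgroup (ZMod M → ℤ) := relSub M ⊔ AddSubgroup.closure {F | ∃ T ∈ A, F = E T} with hX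
  have hEX : ∀ T ∈ A, E T ∈ X ⊔ relSub M := fun T hT =>
    AddSubgroup.mem_sup_left (AddSubgroup.mem_sup_right (AddSubgroup.subset_closure ⟨T, hT, rfl⟩))
  have hexc : ∀ T ∈ A, ExcP X T := by
    intro T hT
    obtain ⟨a1, a2, a3, a4⟩ := hAP T hT
    exact (hE0 T hT).excP a1 a2 a3 (hfM T a1 a4) (hEX T hT)
  have hmemX : oddPart s' ∈ X := by
    refine gen_aux3 (m := M) (m0 := m) h2 (l := s.card) (by omega) le_sup_left
      (Q := fun p q => p % 4 = 3 ∧ q % 4 = 3) ?_ ?_ ha (oddPart_odd s') (isTate_iff.mp hT).2.2 (by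
        rw [hcard] at hl1
        exact hl1) (by
        intro a ha
        by_cases h : ∃ y, jj hm y = a
        · obtain ⟨y, rfl⟩ := h
          exact Pool.Agent.Lib.MP_938ce2_ag_H7f.order_jj_dvd hm y
        · push Not at h
          exact absurd (oddPart_lift_of_forall_ne hm s h) ha)
    · intro p q hp hq hpq hQ
      have hpS : p ∈ S3 := by
        rw [hS3, mem_filter, Nat.mem_primeFactors]
        exact ⟨⟨hp.1, hp.2.1, NeZero.ne m⟩, hQ.1⟩
      have hqS : q ∈ S3 := by
        rw [hS3, mem_filter, Nat.mem_primeFactors]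
        exact ⟨⟨hq.1, hq.2.1, NeZero.ne m⟩, hQ.2⟩
      have hsub : ({p, q} : Finset ℕ) ⊆ S3 := by
        intro r hr
        simp only [mem_insert, mem_singleton] at hr
        rcases hr with rfl | rfl
        · exact hpS
        · exact hqS
      have hTA : ({p, q} : Finset ℕ) ∈ A := by
        rw [hA, mem_filter, mem_powerset]
        exact ⟨hsub, by simp, by rw [card_pair hpq.ne]; decide⟩
      obtain ⟨a1, -, -, a4⟩ := hAP _ hTA
      have hf := hfM _ a1 a4
      unfold fJ at hf
      rw [prod_pair hpq.ne] at hf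
      exact Pool.Agent.Lib.MP_938ce2_ag_h99y.PX.of_excP hp.1 hq.1 hpq.ne hf (hexc _ hTA)
    · intro S hS hc4 hev
      apply hexc
      have hSne : S.Nonempty := by
        rw [← card_pos]
        omega
      have key : ∀ p ∈ S, p % 4 = 3 := by
        intro p hp
        have hex : ∃ q ∈ S, q ≠ p := by
          by_contra hcon
          push Not at hcon
          have : S ⊆ {p} := fun q hq => mem_singleton.mpr (hcon q hq)
          have := card_le_card this
          rw [card_singleton] at this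
          omega
        obtain ⟨q, hq, hqp⟩ := hex
        obtain ⟨b1, b2⟩ := hS p hp
        obtain ⟨b3, b4⟩ := hS q hq
        rcases lt_or_gt_of_ne hqp with hlt | hlt
        · rcases ha q p hlt b3 b1 with h | h
          · exact h.2
          · exfalso
            split_ifs at h <;> omega
        · rcases ha p q hlt b1 b3 with h | h
          · exact h.1
          · exfalso
            split_ifs at h <;> omega
      rw [hA, mem_filter, mem_powerset]
      refine ⟨fun p hp => ?_, hSne, hev⟩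
      obtain ⟨b1, b2⟩ := hS p hp
      rw [hS3, mem_filter, Nat.mem_primeFactors]
      exact ⟨⟨b1.1, b1.2.1, NeZero.ne m⟩, key p hp⟩
  refine mem_of_comb (A := A) (E := E) (fun T hT => ⟨(hAP T hT).1, (hAP T hT).2.1⟩) ?_ ?_ ?_ hmemX ?_
  · intro T hT
    obtain ⟨a1, a2, a3, a4⟩ := hAP T hT
    refine hNM M h1 _ (hE0 T hT).odd' (hE0 T hT).tate ?_
    intro a ha
    obtain ⟨J, hJT, h3⟩ := (hE0 T hT).supp' a1 (hfM T a1 a4) ha
    rw [h3]
    exact ((fJ_dvd hJT).trans (hfJ T a1 a4)).trans (Dvd.intro_left 2 rfl)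
  · intro T hT
    obtain ⟨a1, a2, a3, a4⟩ := hAP T hT
    exact (hE0 T hT).delF a1 a2 a3 (hfM T a1 a4)
  · intro T hT S _ hS
    obtain ⟨a1, a2, a3, a4⟩ := hAP T hT
    exact (hE0 T hT).delF_ne a1 (hfM T a1 a4) hS
  · intro T hT
    obtain ⟨a1, a2, a3, a4⟩ := hAP T hT
    exact delF_lift hm a2 a1.two (hpar T a1.two a2 a3)

end Pool.Agent.Lib.MP_938ce2_ag_h99z
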