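import Pool.Agent.Lib.MP_938ce2_ag_h99z.Z07

/-!
Parities of the multisets attached to cyclic covers.
-/

set_option autoImplicit false
set_option linter.style.haveILetI false
set_option linter.unusedSectionVars false

open Finset

namespace Pool.Agent.Lib.MP_938ce2_ag_h99z

open Pool.Agent.Lib.MP_938ce2_ag_h99 (Eff jj)

variable {m : ℕ} [NeZero m]

/-- each order occurs an even number of times -/
def EvOrd (s : Multiset (ZMod m)) : Prop :=
  ∀ d : ℕ, Even (s.filter fun a => addOrderOf a = d).card

lemma even_filter_of_count {t : Multiset ℕ} (h : ∀ d, Even (t.count d)) (Q : ℕ → Prop)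
    [DecidablePred Q] : Even (t.filter Q).card := by
  rw [← Multiset.toFinset_sum_count_eq]
  refine Finset.even_sum _ fun d _ => ?_
  rw [Multiset.count_filter]
  split_ifs
  · exact h d
  · exact Even.zero

lemma EvOrd.filter {s : Multiset (ZMod m)} (h : EvOrd s) (Q : ℕ → Prop) [DecidablePred Q] :
    Even (s.filter fun a => Q (addOrderOf a)).card := by
  have h1 : ∀ d, Even ((s.map fun a => addOrderOf a).count d) := by
    intro d
    rw [Multiset.count_map]
    have e : (s.filter fun a => d = addOrderOf a) = s.filter fun a => addOrderOf a = d :=
      Multiset.filter_congr fun a _ => eq_comm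
    rw [e]
    exact h d
  have h2 := even_filter_of_count h1 Q
  rw [Multiset.filter_map, Multiset.card_map] at h2
  exact h2

/-- the order of a product depends only on the order of a factor -/
lemma order_mul (a x : ZMod m) :
    addOrderOf (a * x) = addOrderOf x / Nat.gcd (addOrderOf x) a.val := by
  have h1 : a * x = a.val • x := by
    rw [nsmul_eq_mul, ZMod.natCast_zmod_val]
  rw [h1]
  exact addOrderOf_nsmul x

lemma card_filter_bind {n : ℕ} (b : Fin n → ZMod m) (R : ZMod m → Prop) [DecidablePred R]
    (T : Multiset (ZMod m)) :
    ((T.bind fun a => univ.val.map fun i => a * b i).filter R).card =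
      ∑ i, (T.filter fun a => R (a * b i)).card := by
  induction T using Multiset.induction_on with
  | empty => simp
  | cons a T ih =>
    rw [Multiset.cons_bind, Multiset.filter_add, Multiset.card_add, ih, Multiset.filter_map,
      Multiset.card_map]
    have h1 : (Multiset.filter (R ∘ fun i => a * b i) (univ : Finset (Fin n)).val).card =
        ∑ i, if R (a * b i) then 1 else 0 := by
      rw [← Finset.card_filter]
      rfl
    rw [h1, ← sum_add_distrib]
    refine sum_congr rfl fun i _ => ?_
    by_cases hR : R (a * b i)
    · rw [if_pos hR, Multiset.filter_cons_of_pos (p := fun a => R (a * b i)) _ hR,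
        Multiset.card_cons]
      ring
    · rw [if_neg hR, Multiset.filter_cons_of_neg (p := fun a => R (a * b i)) _ hR]
      ring

lemma card_filter_bind' {n : ℕ} (b : Fin n → ZMod m) (R : ZMod m → Prop) [DecidablePred R]
    (T : Multiset (ZMod m)) :
    ((T.bind fun a => univ.val.map fun i => a * b i).filter R).card =
      (T.map fun a => ((univ.val.map b).filter fun x => R (a * x)).card).sum := by
  induction T using Multiset.induction_on with
  | empty => simp
  | cons a T ih =>
    rw [Multiset.cons_bind, Multiset.filter_add, Multiset.card_add, ih, Multiset.filter_map,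
      Multiset.card_map, Multiset.map_cons, Multiset.sum_cons, Multiset.filter_map,
      Multiset.card_map]
    rfl

/-- each order occurs evenly often in `b` or in `T` -/
theorem par_weil {n : ℕ} (b : Fin n → ZMod m) (T : Multiset (ZMod m))
    (h : EvOrd (univ.val.map b) ∨ EvOrd T) :
    Par ((T.bind fun a => univ.val.map fun i => a * b i).filter (· ≠ 0)) := by
  intro P _ hne _
  have h1 : (((T.bind fun a => univ.val.map fun i => a * b i).filter (· ≠ 0)).filter
      fun a => (addOrderOf a).primeFactors = P) =
      (T.bind fun a => univ.val.map fun i => a * b i).filter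
        fun a => (addOrderOf a).primeFactors = P := by
    rw [Multiset.filter_filter]
    apply Multiset.filter_congr
    intro a _
    constructor
    · exact fun h => h.1
    · intro h
      refine ⟨h, ?_⟩
      rintro rfl
      rw [addOrderOf_zero, Nat.primeFactors_one] at h
      rw [← h] at hne
      exact Finset.not_nonempty_empty hne
  rw [h1]
  rcases h with h | h
  · rw [card_filter_bind']
    have h2 : ∀ a : ZMod m, Even (((univ.val.map b).filter
        fun x => (addOrderOf (a * x)).primeFactors = P).card) := by
      intro a
      have h3 := h.filter fun d => (d / Nat.gcd d a.val).primeFactors = P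
      have e : ((univ.val.map b).filter fun x => (addOrderOf (a * x)).primeFactors = P) =
          (univ.val.map b).filter fun x =>
            (addOrderOf x / Nat.gcd (addOrderOf x) a.val).primeFactors = P := by
        apply Multiset.filter_congr
        intro x _
        rw [order_mul]
      rw [e]
      exact h3
    clear h1
    induction T using Multiset.induction_on with
    | empty => simp
    | cons a T ih =>
      rw [Multiset.map_cons, Multiset.sum_cons]
      exact (h2 a).add ih
  · rw [card_filter_bind]
    refine Finset.even_sum _ fun i _ => ?_
    have h3 := h.filter fun d => (d / Nat.gcd d (b i).val).primeFactors = P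
    have e : (T.filter fun a => (addOrderOf (a * b i)).primeFactors = P) =
        T.filter fun a => (addOrderOf a / Nat.gcd (addOrderOf a) (b i).val).primeFactors = P := by
      apply Multiset.filter_congr
      intro a _
      rw [mul_comm, order_mul]
    rw [e]
    exact h3

/-- the effective primes are `3` modulo `4` -/
lemma eff_three {m : ℕ} (h4 : ¬ 4 ∣ m) (h1 : ∀ p, p.Prime → p ∣ m → p % 4 ≠ 1) {p : ℕ}
    (hp : Eff m p) : p % 4 = 3 := by
  have h2 : p ≠ 2 := fun h => h4 (hp.2.2 h)
  have h3 := hp.1.eq_two_or_odd.resolve_left h2
  have h5 := h1 p hp.1 hp.2.1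
  omega

end Pool.Agent.Lib.MP_938ce2_ag_h99z
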